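import Pool.Agent.Lib.MP_bbe012_lc.PG.A10
import Pool.Agent.Lib.MP_bbe012_lc.GAP.N9

/-!
# Separation bounds: the auxiliary vector of polynomials
-/

namespace Pool.Agent.Lib.MP_bbe012_lc.GAP

open Finset PG

/-- At the rational points of a small box at which `∑ j, c_j N_j(σ)` is very small for some small integers `c_j`, the `c_j` satisfy a relation `∑ j, c_j P_j(σ) = 0`, where `P` is a fixed non zero vector of polynomials of bounded degree. (The proof is that of `PG.stage`.) -/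
theorem stage_near (ι J : Type) [Fintype ι] [DecidableEq ι] [Nonempty ι] [Fintype J] [DecidableEq J] [Nonempty J]
    (r B c : ℝ) (κ A M : ℕ) (hr : 0 < r) (hB : 0 ≤ B) (hc : 0 < c)
    (hM : 2 ^ (Fintype.card ι + 2) * Fintype.card ι * Fintype.card J ≤ M) :
    ∃ h T₀ : ℕ, ∀ T : ℕ, T₀ ≤ T → ∀ (θ₀ : ι → ℝ) (N : J → (ι → ℝ) → ℝ) (ν : J → (ι → ℕ) → ℝ),
      (∀ j, Exp r B θ₀ (N j) (ν j)) → (∃ j b, dg b ≤ κ ∧ c ≤ |ν j b|) →
      ∀ ℓ : ℝ, 0 < ℓ → ℓ ^ M * (T : ℝ) ^ (2 * M - 1) ≤ 1 → ∀ (S : Set (ι → ℚ)) (cf : (ι → ℚ) → J → ℤ),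
        (∀ σ ∈ S, (∀ i, HLE T (σ i)) ∧ (∀ i, |(σ i : ℝ) - θ₀ i| ≤ ℓ) ∧ (∀ j, |cf σ j| ≤ (T : ℤ) ^ A) ∧
          |∑ j, (cf σ j : ℝ) * N j (fun i => (σ i : ℝ))| ≤ ℓ ^ (h + 1)) →
        ∃ P : J → (ι → Fin (2 * h + 1)) → ℝ, (∀ j a, |P j a| ≤ 1) ∧ (∃ j a, |P j a| = 1) ∧
          ∀ σ ∈ S, ∑ j, (∑ a, P j a * ∏ l, (σ l : ℝ) ^ (a l : ℕ)) * (cf σ j : ℝ) = 0 := by
  classical
  obtain ⟨K, hK⟩ : ∃ K, K = Fintype.card ι := ⟨_, rfl⟩
  obtain ⟨q, hq⟩ : ∃ q, q = Fintype.card J := ⟨_, rfl⟩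
  have hK1 : 1 ≤ K := by rw [hK]; exact Fintype.card_pos
  have hq1 : 1 ≤ q := by rw [hq]; exact Fintype.card_pos
  rw [← hK, ← hq] at hM
  have hM1 : 1 ≤ M := by
    refine le_trans ?_ hM
    exact Nat.mul_pos (Nat.mul_pos (by positivity) hK1) hq1
  obtain ⟨h, hh⟩ : ∃ h, h = 2 ^ (K + 2) * (A * q + κ + 1) := ⟨_, rfl⟩
  have hκh : κ ≤ h := by
    rw [hh]
    have h1 : 1 ≤ 2 ^ (K + 2) := Nat.one_le_two_pow
    nlinarith [Nat.zero_le (A * q)]
  obtain ⟨C, ℓ₀, hC, hℓ₀, hup⟩ := det_near ι J r B c κ h hr hB hc hκh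
  obtain ⟨T₁, hT₁⟩ := exists_nat_gt (C ^ M)
  obtain ⟨T₂, hT₂⟩ := exists_nat_gt (1 / ℓ₀)
  refine ⟨h, max 1 (max T₁ T₂), fun T hT θ₀ N ν hE hν ℓ hℓ hℓM S cf hS => ?_⟩
  have hT1 : 1 ≤ T := (le_max_left _ _).trans hT
  have hTC : C ^ M < T := hT₁.trans_le (by
    exact_mod_cast ((le_max_left _ _).trans (le_max_right _ _)).trans hT)
  have hTℓ : 1 / ℓ₀ < T := hT₂.trans_le (by
    exact_mod_cast ((le_max_right _ _).trans (le_max_right _ _)).trans hT)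
  have hTr : (1 : ℝ) ≤ T := by exact_mod_cast hT1
  have hT0 : (0 : ℝ) < T := lt_of_lt_of_le one_pos hTr
  have hℓT : ℓ * T ≤ 1 := by
    have h1 : (ℓ * T) ^ M ≤ 1 := by
      rw [mul_pow]
      refine le_trans ?_ hℓM
      exact mul_le_mul_of_nonneg_left (pow_le_pow_right₀ hTr (by omega)) (by positivity)
    exact (pow_le_one_iff_of_nonneg (by positivity) (by omega)).1 h1
  have hℓℓ₀ : ℓ ≤ ℓ₀ := by
    rw [div_lt_iff₀ hℓ₀] at hTℓ
    have h1 : ℓ * T ≤ ℓ₀ * T := by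
      rw [mul_comm ℓ₀]
      exact hℓT.trans hTℓ.le
    exact le_of_mul_le_mul_right h1 hT0
  let v : S → (ι → Fin (2 * h + 1)) × J → ℝ := fun s aj =>
    (∏ l, ((s : ι → ℚ) l : ℝ) ^ (aj.1 l : ℕ)) * (cf s aj.2 : ℝ)
  rcases exists_normal v with ⟨P, hP1, ⟨⟨a₀, j₀⟩, hP2⟩, hP3⟩ | ⟨f, hf⟩
  · refine ⟨fun j a => P (a, j), fun j a => hP1 (a, j), ⟨j₀, a₀, hP2⟩, fun σ hσ => ?_⟩
    have h1 := hP3 ⟨σ, hσ⟩
    rw [Fintype.sum_prod_type, Finset.sum_comm] at h1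
    rw [← h1]
    refine Finset.sum_congr rfl fun j _ => ?_
    rw [Finset.sum_mul]
    refine Finset.sum_congr rfl fun a _ => ?_
    simp only [v]
    ring
  · exfalso
    -- the rational matrix
    let Mq : Matrix ((ι → Fin (2 * h + 1)) × J) ((ι → Fin (2 * h + 1)) × J) ℚ :=
      Matrix.of fun i aj => (∏ l, (f i : ι → ℚ) l ^ (aj.1 l : ℕ)) * (cf (f i) aj.2 : ℚ)
    have hcast : ((Mq.det : ℚ) : ℝ) = (Matrix.of fun i => v (f i)).det := by
      have h1 := (Rat.castHom ℝ).map_det Mq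
      have h2 : (Rat.castHom ℝ) Mq.det = ((Mq.det : ℚ) : ℝ) := rfl
      rw [← h2, h1]
      congr 1
      ext i aj
      simp only [RingHom.mapMatrix_apply, Matrix.map_apply, Matrix.of_apply, Mq, v, map_mul, map_prod,
        map_pow, eq_ratCast, map_intCast]
    have hdq : Mq.det ≠ 0 := by
      intro h0
      apply hf
      rw [← hcast, h0, Rat.cast_zero]
    have hlow := det_lower Mq (fun i => ∏ l, ((f i : ι → ℚ) l).den ^ (2 * h)) (T ^ (2 * h * K))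
      (by
        intro i
        constructor
        · exact Finset.prod_pos fun l _ => pow_pos ((f i : ι → ℚ) l).den_pos _
        · calc ∏ l, ((f i : ι → ℚ) l).den ^ (2 * h) ≤ ∏ _l : ι, T ^ (2 * h) :=
                Finset.prod_le_prod' fun l _ =>
                  Nat.pow_le_pow_left ((hS _ (f i).2).1 l).2 _
            _ = T ^ (2 * h * K) := by
                rw [Finset.prod_const, Finset.card_univ, ← hK, ← pow_mul])
      (by
        intro i aj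
        refine ⟨(∏ l, ((f i : ι → ℚ) l).num ^ (aj.1 l : ℕ) *
          (((f i : ι → ℚ) l).den : ℤ) ^ (2 * h - (aj.1 l : ℕ))) * cf (f i) aj.2, ?_⟩
        simp only [Mq, Matrix.of_apply]
        push_cast
        rw [← mul_assoc, ← Finset.prod_mul_distrib]
        congr 1
        refine Finset.prod_congr rfl fun l _ => ?_
        have h1 : (aj.1 l : ℕ) ≤ 2 * h := Nat.le_of_lt_succ (aj.1 l).2
        have h2 : (((f i : ι → ℚ) l).den : ℚ) ≠ 0 := by
          exact_mod_cast ((f i : ι → ℚ) l).den_ne_zero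
        have h3 : (((f i : ι → ℚ) l).den : ℚ) * (f i : ι → ℚ) l = ((f i : ι → ℚ) l).num :=
          Rat.den_mul_eq_num _
        have h4 : (((f i : ι → ℚ) l).den : ℚ) ^ (2 * h) =
            (((f i : ι → ℚ) l).den : ℚ) ^ (2 * h - (aj.1 l : ℕ)) *
              (((f i : ι → ℚ) l).den : ℚ) ^ (aj.1 l : ℕ) := by
          rw [← pow_add]
          congr 1
          omega
        rw [h4, mul_assoc, ← mul_pow, h3]
        ring)
      hdq
    have hlow' : 1 ≤ |(Matrix.of fun i => v (f i)).det| *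
        ((T : ℝ) ^ (2 * h * K)) ^ Fintype.card ((ι → Fin (2 * h + 1)) × J) := by
      have h1 : ((1 : ℚ) : ℝ) ≤ ((|Mq.det| * ((T ^ (2 * h * K) : ℕ) : ℚ) ^
          Fintype.card ((ι → Fin (2 * h + 1)) × J) : ℚ) : ℝ) := by exact_mod_cast hlow
      rw [← hcast]
      push_cast at h1 ⊢
      exact h1
    have hupp := hup θ₀ N ν hE hν ℓ hℓ hℓℓ₀ (fun i l => ((f i : ι → ℚ) l : ℝ))
      (fun i j => (cf (f i) j : ℝ)) ((T : ℝ) ^ A) (by positivity)
      (fun i l => (hS _ (f i).2).2.1 l)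
      (fun i j => by
        have h1 := (hS _ (f i).2).2.2.1 j
        have h2 : ((|cf (f i) j| : ℤ) : ℝ) ≤ (((T : ℤ) ^ A : ℤ) : ℝ) := by exact_mod_cast h1
        push_cast at h2
        exact h2)
      (fun i => ((hS _ (f i).2).2.2.2).trans (le_mul_of_one_le_left (by positivity)
        (one_le_pow₀ hTr)))
    have hmat : rowMat (2 * h) (fun i l => ((f i : ι → ℚ) l : ℝ)) (fun i j => (cf (f i) j : ℝ)) =
        Matrix.of fun i => v (f i) := by
      ext i aj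
      simp only [rowMat, Matrix.of_apply, v]
    rw [hmat] at hupp
    have hcard : Fintype.card ((ι → Fin (2 * h + 1)) × J) = (2 * h + 1) ^ K * q := by
      rw [Fintype.card_prod, Fintype.card_fun, Fintype.card_fin, ← hK, ← hq]
    have hdeg : ∑ a : ι → Fin (2 * h + 1), ∑ l, (a l : ℕ) = K * h * (2 * h + 1) ^ K := by
      have h1 := two_mul_sum_deg (ι := ι) (2 * h)
      rw [← hK] at h1
      have h2 : 2 * ∑ a : ι → Fin (2 * h + 1), ∑ l, (a l : ℕ) = 2 * (K * h * (2 * h + 1) ^ K) := by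
        rw [h1]
        ring
      omega
    rw [hdeg, hcard, ← hq, ← hK] at hupp
    rw [hcard] at hlow'
    have harith := arith_stage K q A κ M hK1 hq1 hM h hh
    obtain ⟨Q, hQ⟩ : ∃ Q, Q = (2 * h + 1) ^ K * q := ⟨_, rfl⟩
    obtain ⟨G, hG⟩ : ∃ G, G = q * (K * h * (2 * h + 1) ^ K) + (h + 1 - κ) * (h + 1) ^ K := ⟨_, rfl⟩
    rw [← hQ] at hupp hlow' harith
    rw [← hG] at hupp harith
    have h1 : 1 ≤ C * (T : ℝ) ^ ((A + 2 * h * K) * Q) * ℓ ^ G := by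
      refine hlow'.trans ?_
      calc |(Matrix.of fun i => v (f i)).det| * ((T : ℝ) ^ (2 * h * K)) ^ Q
          ≤ (C * ((T : ℝ) ^ A) ^ Q * ℓ ^ G) * ((T : ℝ) ^ (2 * h * K)) ^ Q :=
            mul_le_mul_of_nonneg_right hupp (by positivity)
        _ = C * (T : ℝ) ^ ((A + 2 * h * K) * Q) * ℓ ^ G := by
            rw [add_mul, pow_add, pow_mul, pow_mul]
            ring
    have h2 : 1 ≤ C ^ M * (T : ℝ) ^ (M * ((A + 2 * h * K) * Q)) * (ℓ ^ M) ^ G := by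
      have h3 := one_le_pow₀ h1 (n := M)
      refine h3.trans (le_of_eq ?_)
      rw [mul_pow, mul_pow, ← pow_mul, ← pow_mul, ← pow_mul, mul_comm G M,
        mul_comm ((A + 2 * h * K) * Q) M]
    have h3 : (ℓ ^ M) ^ G * (T : ℝ) ^ ((2 * M - 1) * G) ≤ 1 := by
      rw [pow_mul (T : ℝ), ← mul_pow]
      exact pow_le_one₀ (by positivity) hℓM
    have h4 : (T : ℝ) ^ ((2 * M - 1) * G) ≤ C ^ M * (T : ℝ) ^ (M * ((A + 2 * h * K) * Q)) := by
      calc (T : ℝ) ^ ((2 * M - 1) * G) = 1 * (T : ℝ) ^ ((2 * M - 1) * G) := (one_mul _).symm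
        _ ≤ C ^ M * (T : ℝ) ^ (M * ((A + 2 * h * K) * Q)) * (ℓ ^ M) ^ G *
              (T : ℝ) ^ ((2 * M - 1) * G) := mul_le_mul_of_nonneg_right h2 (by positivity)
        _ = C ^ M * (T : ℝ) ^ (M * ((A + 2 * h * K) * Q)) *
              ((ℓ ^ M) ^ G * (T : ℝ) ^ ((2 * M - 1) * G)) := by ring
        _ ≤ C ^ M * (T : ℝ) ^ (M * ((A + 2 * h * K) * Q)) * 1 :=
            mul_le_mul_of_nonneg_left h3 (by positivity)
        _ = _ := mul_one _
    have h5 : (T : ℝ) ^ (M * ((A + 2 * h * K) * Q)) * T ≤ (T : ℝ) ^ ((2 * M - 1) * G) := by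
      rw [← pow_succ]
      exact pow_le_pow_right₀ hTr harith
    have h6 : (T : ℝ) ^ (M * ((A + 2 * h * K) * Q)) * T ≤
        (T : ℝ) ^ (M * ((A + 2 * h * K) * Q)) * C ^ M := by
      rw [mul_comm _ (C ^ M)]
      exact h5.trans h4
    exact absurd hTC (le_of_mul_le_mul_left h6 (by positivity)).not_gt

end Pool.Agent.Lib.MP_bbe012_lc.GAP
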