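import Pool.Agent.Lib.MP_bbe012_lc.PG.A12

/-!
# Separation bounds: one step of the induction
-/

namespace Pool.Agent.Lib.MP_bbe012_lc.GAP

open Finset MvPolynomial PG

/-- A polynomial with coefficients at most `1` and bounded degrees is bounded on bounded sets. -/
theorem abs_eval_mkPoly_le {ι : Type} [Fintype ι] [DecidableEq ι] {n : ℕ} {p : (ι → Fin (n + 1)) → ℝ}
    (hp : ∀ a, |p a| ≤ 1) {θ : ι → ℝ} {R : ℝ} (hR : 0 ≤ R) (hθ : ∀ i, |θ i| ≤ R) :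
    |eval θ (mkPoly p)| ≤ (Fintype.card (ι → Fin (n + 1)) : ℝ) * (1 + R) ^ (n * Fintype.card ι) := by
  rw [eval_mkPoly]
  refine (Finset.abs_sum_le_sum_abs _ _).trans ?_
  have h1 : ∀ a ∈ (Finset.univ : Finset (ι → Fin (n + 1))), |p a * ∏ l, θ l ^ (a l : ℕ)| ≤
      (1 + R) ^ (n * Fintype.card ι) := by
    intro a _
    rw [abs_mul, Finset.abs_prod]
    have h2 : ∏ l, |θ l ^ (a l : ℕ)| ≤ ∏ _l : ι, (1 + R) ^ n := by
      refine Finset.prod_le_prod (fun l _ => abs_nonneg _) fun l _ => ?_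
      rw [abs_pow]
      calc |θ l| ^ (a l : ℕ) ≤ (1 + R) ^ (a l : ℕ) :=
            pow_le_pow_left₀ (abs_nonneg _) ((hθ l).trans (by linarith)) _
        _ ≤ (1 + R) ^ n := pow_le_pow_right₀ (by linarith) (Nat.le_of_lt_succ (a l).2)
    rw [Finset.prod_const, Finset.card_univ, ← pow_mul] at h2
    calc |p a| * ∏ l, |θ l ^ (a l : ℕ)| ≤ 1 * (1 + R) ^ (n * Fintype.card ι) :=
          mul_le_mul (hp a) h2 (Finset.prod_nonneg fun l _ => abs_nonneg _) zero_le_one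
      _ = _ := one_mul _
  refine (Finset.sum_le_card_nsmul _ _ _ h1).trans ?_
  rw [nsmul_eq_mul, Finset.card_univ]

/-- One step of the induction. (The proof is that of `PG.step`.) -/
theorem step_near (ι : Type) [Fintype ι] [DecidableEq ι] (r D D' : ℕ) (ρ : ℝ) (hρ : 0 < ρ) :
    ∃ ρ' w : ℝ, 0 < ρ' ∧ 0 < w ∧ w ≤ 1 ∧
    ∀ (V : Fin r → (ι → ℝ) → ℝ) (J : Finset (Fin r)) (g : MvPolynomial ι ℝ) (x : Fin r → Fin r → MvPolynomial ι ℝ),
      St D ρ J g x → ∀ (P : Fin r → MvPolynomial ι ℝ) (j₁ : Fin r), j₁ ∈ J → (∀ j l, (P j).degreeOf l ≤ D') →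
        (∀ j b, |coeff b (P j)| ≤ 1) → (∃ b, |coeff b (P j₁)| = 1) →
        ∃ (g' : MvPolynomial ι ℝ) (x' : Fin r → Fin r → MvPolynomial ι ℝ), St (D + D') ρ' (J.erase j₁) g' x' ∧
          ∀ (θ : ι → ℝ) (c : Fin r → ℝ), ∑ j ∈ J, c j * eval θ (P j) = 0 →
            ∑ j ∈ J.erase j₁, c j * Nf V x' j θ =
              w * (eval θ (P j₁) * ∑ j ∈ J, c j * Nf V x j θ) := by
  classical
  obtain ⟨c₀, hc₀, hmul⟩ := exists_coeff_mul ι D' D
  obtain ⟨M₀, hM₀⟩ : ∃ M₀ : ℝ, M₀ = 2 * ((D : ℝ) + D' + 1) ^ Fintype.card ι := ⟨_, rfl⟩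
  have hM₀0 : 0 < M₀ := by
    rw [hM₀]
    positivity
  have hM₀1 : M₀⁻¹ ≤ 1 := by
    refine inv_le_one_of_one_le₀ ?_
    have h0 : (0 : ℝ) ≤ D + D' := add_nonneg (Nat.cast_nonneg D) (Nat.cast_nonneg D')
    have h1 : (1 : ℝ) ≤ ((D : ℝ) + D' + 1) ^ Fintype.card ι := one_le_pow₀ (by linarith)
    rw [hM₀]
    linarith
  refine ⟨M₀⁻¹ * (c₀ * (1 * ρ)), M₀⁻¹, by positivity, by positivity, hM₀1, ?_⟩
  intro V J g x hSt P j₁ hj₁ hPd hP1 hPj
  have hgd : ∀ l, g.degreeOf l ≤ D := by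
    intro l
    rw [← hSt.diag j₁ hj₁]
    exact hSt.deg j₁ j₁ l
  have hbd : ∀ (j : Fin r) (Q : MvPolynomial ι ℝ), (∀ b, |coeff b Q| ≤ 1) → ∀ b,
      |coeff b (P j * Q)| ≤ ((D : ℝ) + D' + 1) ^ Fintype.card ι := by
    intro j Q hQ b
    have h1 := abs_coeff_mul_le (hPd j) (hP1 j) hQ zero_le_one zero_le_one b
    rw [one_mul, mul_one] at h1
    refine h1.trans (pow_le_pow_left₀ (by positivity) ?_ _)
    have : (0 : ℝ) ≤ D := Nat.cast_nonneg D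
    linarith
  obtain ⟨x', hx'⟩ : ∃ x' : Fin r → Fin r → MvPolynomial ι ℝ, x' = fun j i =>
      if j ∈ J.erase j₁ then C M₀⁻¹ * (P j₁ * x j i - P j * x j₁ i) else 0 := ⟨_, rfl⟩
  have hx'1 : ∀ j ∈ J.erase j₁, ∀ i, x' j i = C M₀⁻¹ * (P j₁ * x j i - P j * x j₁ i) := by
    intro j hj i
    rw [hx']
    exact if_pos hj
  have hx'0 : ∀ j, j ∉ J.erase j₁ → ∀ i, x' j i = 0 := by
    intro j hj i
    rw [hx']
    exact if_neg hj
  refine ⟨C M₀⁻¹ * (P j₁ * g), x', ⟨?_, ?_, ?_, ?_, ?_⟩, ?_⟩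
  · intro j i l
    by_cases hj : j ∈ J.erase j₁
    · rw [hx'1 j hj i]
      refine (degreeOf_C_mul_le _ _ _).trans ((degreeOf_sub_le _ _ _).trans (max_le ?_ ?_))
      · refine (degreeOf_mul_le _ _ _).trans ?_
        have h1 := hPd j₁ l
        have h2 := hSt.deg j i l
        omega
      · refine (degreeOf_mul_le _ _ _).trans ?_
        have h1 := hPd j l
        have h2 := hSt.deg j₁ i l
        omega
    · rw [hx'0 j hj i, degreeOf_zero]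
      exact Nat.zero_le _
  · intro j i b
    by_cases hj : j ∈ J.erase j₁
    · rw [hx'1 j hj i, coeff_C_mul, coeff_sub, abs_mul, abs_of_pos (inv_pos.2 hM₀0),
        inv_mul_le_iff₀ hM₀0, mul_one]
      have h1 := hbd j₁ (x j i) (hSt.bd j i) b
      have h2 := hbd j (x j₁ i) (hSt.bd j₁ i) b
      have h3 := abs_sub (coeff b (P j₁ * x j i)) (coeff b (P j * x j₁ i))
      rw [hM₀]
      linarith
    · rw [hx'0 j hj i, coeff_zero, abs_zero]
      exact zero_le_one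
  · intro j hj
    obtain ⟨hj1, hjJ⟩ := Finset.mem_erase.1 hj
    rw [hx'1 j hj j, hSt.diag j hjJ, hSt.off j₁ hj₁ j hjJ hj1, mul_zero, sub_zero]
  · intro j hj i hi hij
    obtain ⟨hj1, hjJ⟩ := Finset.mem_erase.1 hj
    obtain ⟨hi1, hiJ⟩ := Finset.mem_erase.1 hi
    rw [hx'1 j hj i, hSt.off j hjJ i hiJ hij, hSt.off j₁ hj₁ i hiJ hi1, mul_zero, mul_zero,
      sub_zero, mul_zero]
  · obtain ⟨b₁, hb₁⟩ := hPj
    obtain ⟨b, hb⟩ := hmul (P j₁) g 1 ρ (hPd j₁) hgd one_pos hρ ⟨b₁, hb₁.ge⟩ hSt.low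
    refine ⟨b, ?_⟩
    rw [coeff_C_mul, abs_mul, abs_of_pos (inv_pos.2 hM₀0)]
    exact mul_le_mul_of_nonneg_left hb (inv_pos.2 hM₀0).le
  · intro θ c h2
    have h3 : ∀ j ∈ J.erase j₁, c j * Nf V x' j θ = M₀⁻¹ * (eval θ (P j₁) * (c j * Nf V x j θ) -
        (c j * eval θ (P j)) * Nf V x j₁ θ) := by
      intro j hj
      have h4 : Nf V x' j θ = M₀⁻¹ * (eval θ (P j₁) * Nf V x j θ -
          eval θ (P j) * Nf V x j₁ θ) := by
        unfold Nf
        rw [Finset.mul_sum, Finset.mul_sum, ← Finset.sum_sub_distrib, Finset.mul_sum]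
        refine Finset.sum_congr rfl fun i _ => ?_
        rw [hx'1 j hj i, map_mul, eval_C, map_sub, map_mul, map_mul]
        ring
      rw [h4]
      ring
    rw [Finset.sum_congr rfl h3, ← Finset.mul_sum, Finset.sum_sub_distrib, ← Finset.mul_sum,
      ← Finset.sum_mul]
    have h5 := Finset.add_sum_erase J (fun j => c j * Nf V x j θ) hj₁
    have h6 := Finset.add_sum_erase J (fun j => c j * eval θ (P j)) hj₁
    rw [h2] at h6
    have h7 : ∑ j ∈ J.erase j₁, c j * Nf V x j θ =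
        ∑ j ∈ J, c j * Nf V x j θ - c j₁ * Nf V x j₁ θ := by linarith
    have h8 : ∑ j ∈ J.erase j₁, c j * eval θ (P j) = -(c j₁ * eval θ (P j₁)) := by linarith
    rw [h7, h8]
    ring

end Pool.Agent.Lib.MP_bbe012_lc.GAP
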