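import Pool.Agent.Lib.MP_bbe012_lc.PH.HG4

/-!
# Separation bounds: the values as linear forms with small integer coefficients
-/

namespace Pool.Agent.Lib.MP_bbe012_lc.GAP

open MvPolynomial MeasureTheory Set PP PG PT PH

private theorem lin_aeval {s : ℕ} (θ : Fin s → ℚ) (p : MvPolynomial (Fin s) ℚ) :
    aeval (cst θ) p = ((aeval θ p : ℚ) : ℝ) := by
  have h := MvPolynomial.aeval_algebraMap_apply (R := ℚ) (A := ℚ) ℝ θ p
  exact h

private theorem lin_bound {T a : ℕ} {N : ℕ} {x : ℚ} {z : ℤ} {b : ℕ} (hN : N ≤ T ^ a)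
    (hx : |x| ≤ (T : ℚ) ^ b) (hz : (N : ℚ) * x = z) : |(z : ℚ)| ≤ (T : ℚ) ^ a * (T : ℚ) ^ b := by
  rw [← hz, abs_mul, Nat.abs_cast]
  have h1 : (N : ℚ) ≤ (T : ℚ) ^ a := by exact_mod_cast hN
  exact mul_le_mul h1 hx (abs_nonneg _) (pow_nonneg (Nat.cast_nonneg _) _)

/-- A non zero multiple of the value of `E` is a combination of the independent functions with integer coefficients; everything is at most `T ^ A'`. (The computation is that of `PH.exists_haltH`.) -/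
theorem exists_linH {s n μ A ρ b : ℕ} {m : Fin μ → ℕ} (hm : ∀ k, m k ≤ n) {F : (k : Fin μ) → Typ s (m k)}
    {e : Fin s → ℚ} {Ω : Set (Fin s → ℝ)} (hR : RegOK (fun k => (F k).pad (hm k)) b e Ω)
    {π : Fin ρ → PatH μ n A} {q : MvPolynomial (Fin s) ℚ} {r : PatH μ n A → Fin ρ → MvPolynomial (Fin s) ℚ}
    (hrel : ∀ p, ∀ θ ∈ Ω, aeval θ q * VPH (fun k => (F k).pad (hm k)) b A p θ =
      ∑ i, aeval θ (r p i) * VPH (fun k => (F k).pad (hm k)) b A (π i) θ) :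
    ∃ A' : ℕ, ∀ T : ℕ, 2 ≤ T → ∀ θ : Fin s → ℚ, (∀ i, HLE T (θ i)) → cst θ ∈ Ω → aeval θ q ≠ 0 →
      ∀ E : ExH, InClassH F b A T θ E → ∃ (c : Fin ρ → ℤ) (w : ℝ), (∀ i, |c i| ≤ (T : ℤ) ^ A') ∧ w ≠ 0 ∧
        |w| ≤ (T : ℝ) ^ A' ∧
        w * exhVal E = ∑ i, (c i : ℝ) * VPH (fun k => (F k).pad (hm k)) b A (π i) (cst θ) := by
  classical
  obtain ⟨B, hB⟩ := poly_heights (fun x : Option (PatH μ n A × Fin ρ) => x.elim q fun y => r y.1 y.2)
  refine ⟨B + A * A + Fintype.card (PatH μ n A) + (A + A * A) + B,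
    fun T hT θ hH hθ hq E hE => ?_⟩
  obtain ⟨γ, hγ01, hγΩ⟩ := exists_path hR.op hR.pre hR.mem hθ
  have hγ : PathOK γ e Ω := ⟨fun i => (hγ01 i).1, hγΩ⟩
  have h1γ : ∀ i, (γ i).eval 1 = θ i := fun i => (hγ01 i).2
  choose c hc using fun k => exists_pathC (hR.base k) hγ.zero
  have hNk : ∀ k, NdC (c k) b := fun k => NdC_path hR hγ (hc k)
  obtain ⟨Tc, cof, hTc⟩ := exists_totC c (fun k => (hc k).ok) A
  obtain ⟨rr, x, nn, N, hrr, hM, hn, hK, hTr, hG, hN1, hN2, hnn⟩ :=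
    exists_redH hm (by omega) hE hR.b2 h1γ hc hNk hTc
  obtain ⟨N', hN'1, hN'2, hr⟩ := hB T hT θ hH
  have hval := exhVal_eq_sum hR hγ h1γ hc hTc hrr hM hn hK hTr nn hG
  choose hnb z hz using hnn
  have hr0 := hr none
  have hr1 : ∀ y : PatH μ n A × Fin ρ, |aeval θ (r y.1 y.2)| ≤ (T : ℚ) ^ B ∧
      ∃ z : ℤ, (N' : ℚ) * aeval θ (r y.1 y.2) = z := fun y => hr (some y)
  choose hrb y hy using hr1
  have hrelθ : ∀ p, ((aeval θ q : ℚ) : ℝ) * VPH (fun k => (F k).pad (hm k)) b A p (cst θ) =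
      ∑ i, ((aeval θ (r p i) : ℚ) : ℝ) * VPH (fun k => (F k).pad (hm k)) b A (π i) (cst θ) := by
    intro p
    have h := hrel p (cst θ) hθ
    rw [lin_aeval] at h
    rw [h]
    exact Finset.sum_congr rfl fun i _ => by rw [lin_aeval]
  have hsum : ∑ i, (∑ p, (nn p : ℝ) * ((aeval θ (r p i) : ℚ) : ℝ)) *
      VPH (fun k => (F k).pad (hm k)) b A (π i) (cst θ) = ((aeval θ q : ℚ) : ℝ) * exhVal E := by
    have h2 : ((aeval θ q : ℚ) : ℝ) * exhVal E =
        ∑ p, (nn p : ℝ) * (((aeval θ q : ℚ) : ℝ) * VPH (fun k => (F k).pad (hm k)) b A p (cst θ)) := by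
      rw [hval, Finset.mul_sum]
      exact Finset.sum_congr rfl fun p _ => by ring
    rw [h2]
    have h3 : ∀ p, (nn p : ℝ) * (((aeval θ q : ℚ) : ℝ) * VPH (fun k => (F k).pad (hm k)) b A p (cst θ)) =
        ∑ i, (nn p : ℝ) * ((aeval θ (r p i) : ℚ) : ℝ) *
          VPH (fun k => (F k).pad (hm k)) b A (π i) (cst θ) := by
      intro p
      rw [hrelθ p, Finset.mul_sum]
      exact Finset.sum_congr rfl fun i _ => by ring
    rw [Finset.sum_congr rfl fun p _ => h3 p, Finset.sum_comm]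
    exact Finset.sum_congr rfl fun i _ => by rw [Finset.sum_mul]
  have hcz : ∀ i, ((∑ p, z p * y (p, i) : ℤ) : ℚ) =
      ((N : ℚ) * N') * ∑ p, nn p * aeval θ (r p i) := by
    intro i
    rw [Int.cast_sum, Finset.mul_sum]
    refine Finset.sum_congr rfl fun p _ => ?_
    rw [Int.cast_mul, ← hz p, ← hy (p, i)]
    ring
  have hT0 : (0 : ℚ) ≤ (T : ℚ) := Nat.cast_nonneg _
  have hT1 : (1 : ℚ) ≤ (T : ℚ) := by exact_mod_cast (by omega : 1 ≤ T)
  refine ⟨fun i => ∑ p, z p * y (p, i), (((N : ℚ) * N' * aeval θ q : ℚ) : ℝ), ?_, ?_, ?_, ?_⟩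
  · intro i
    have h1 : |((∑ p, z p * y (p, i) : ℤ) : ℚ)| ≤
        (T : ℚ) ^ (B + A * A + Fintype.card (PatH μ n A) + (A + A * A) + B) := by
      rw [Int.cast_sum]
      refine (Finset.abs_sum_le_sum_abs _ _).trans ?_
      have h2 : ∀ p ∈ (Finset.univ : Finset (PatH μ n A)), |((z p * y (p, i) : ℤ) : ℚ)| ≤
          ((T : ℚ) ^ (A * A) * (T : ℚ) ^ (A + A * A)) * ((T : ℚ) ^ B * (T : ℚ) ^ B) := by
        intro p _
        rw [Int.cast_mul, abs_mul]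
        exact mul_le_mul (lin_bound hN2 (hnb p) (hz p)) (lin_bound hN'2 (hrb (p, i)) (hy (p, i)))
          (abs_nonneg _) (mul_nonneg (pow_nonneg hT0 _) (pow_nonneg hT0 _))
      refine (Finset.sum_le_card_nsmul _ _ _ h2).trans ?_
      rw [nsmul_eq_mul, Finset.card_univ]
      have h3 : (Fintype.card (PatH μ n A) : ℚ) ≤ (T : ℚ) ^ Fintype.card (PatH μ n A) := by
        have h4 : Fintype.card (PatH μ n A) ≤ T ^ Fintype.card (PatH μ n A) :=
          Nat.lt_two_pow_self.le.trans (Nat.pow_le_pow_left hT _)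
        exact_mod_cast h4
      have h5 : (T : ℚ) ^ (B + A * A + Fintype.card (PatH μ n A) + (A + A * A) + B) =
          (T : ℚ) ^ Fintype.card (PatH μ n A) *
            (((T : ℚ) ^ (A * A) * (T : ℚ) ^ (A + A * A)) * ((T : ℚ) ^ B * (T : ℚ) ^ B)) := by
        rw [← pow_add, ← pow_add, ← pow_add, ← pow_add]
        exact congrArg (fun k => (T : ℚ) ^ k) (by ring)
      rw [h5]
      exact mul_le_mul_of_nonneg_right h3 (mul_nonneg (mul_nonneg (pow_nonneg hT0 _)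
        (pow_nonneg hT0 _)) (mul_nonneg (pow_nonneg hT0 _) (pow_nonneg hT0 _)))
    exact_mod_cast h1
  · have h2 : (N : ℚ) ≠ 0 := by
      have := hN1
      exact_mod_cast (by omega : N ≠ 0)
    have h3 : (N' : ℚ) ≠ 0 := by
      have := hN'1
      exact_mod_cast (by omega : N' ≠ 0)
    have h4 : ((N : ℚ) * N' * aeval θ q) ≠ 0 := mul_ne_zero (mul_ne_zero h2 h3) hq
    exact_mod_cast h4
  · have h1 : |(N : ℚ) * N' * aeval θ q| ≤
        (T : ℚ) ^ (B + A * A + Fintype.card (PatH μ n A) + (A + A * A) + B) := by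
      rw [abs_mul, abs_mul, Nat.abs_cast, Nat.abs_cast]
      have h2 : (N : ℚ) ≤ (T : ℚ) ^ (A * A) := by exact_mod_cast hN2
      have h3 : (N' : ℚ) ≤ (T : ℚ) ^ B := by exact_mod_cast hN'2
      calc (N : ℚ) * N' * |aeval θ q| ≤ (T : ℚ) ^ (A * A) * (T : ℚ) ^ B * (T : ℚ) ^ B :=
            mul_le_mul (mul_le_mul h2 h3 (Nat.cast_nonneg _) (pow_nonneg hT0 _)) hr0.1 (abs_nonneg _)
              (mul_nonneg (pow_nonneg hT0 _) (pow_nonneg hT0 _))
        _ = (T : ℚ) ^ (A * A + B + B) := by rw [pow_add, pow_add]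
        _ ≤ _ := pow_le_pow_right₀ hT1 (by omega)
    have h2 : ((|(N : ℚ) * N' * aeval θ q| : ℚ) : ℝ) ≤
        (((T : ℚ) ^ (B + A * A + Fintype.card (PatH μ n A) + (A + A * A) + B) : ℚ) : ℝ) :=
      Rat.cast_le.2 h1
    rw [Rat.cast_abs, Rat.cast_pow, Rat.cast_natCast] at h2
    exact h2
  · have h1 : ∀ i, (((∑ p, z p * y (p, i) : ℤ) : ℤ) : ℝ) =
        ((N : ℝ) * N') * ∑ p, (nn p : ℝ) * ((aeval θ (r p i) : ℚ) : ℝ) := by
      intro i
      have h2 := congrArg (fun w : ℚ => (w : ℝ)) (hcz i)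
      push_cast at h2
      rw [Int.cast_sum]
      push_cast
      exact h2
    have h2 : ∀ i, (((∑ p, z p * y (p, i) : ℤ) : ℤ) : ℝ) *
        VPH (fun k => (F k).pad (hm k)) b A (π i) (cst θ) =
        ((N : ℝ) * N') * ((∑ p, (nn p : ℝ) * ((aeval θ (r p i) : ℚ) : ℝ)) *
          VPH (fun k => (F k).pad (hm k)) b A (π i) (cst θ)) := by
      intro i
      rw [h1 i]
      ring
    rw [Finset.sum_congr rfl fun i _ => h2 i, ← Finset.mul_sum, hsum, Rat.cast_mul, Rat.cast_mul,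
      Rat.cast_natCast, Rat.cast_natCast]
    ring

end Pool.Agent.Lib.MP_bbe012_lc.GAP
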