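import Pool.Agent.Lib.MP_bbe012_lc.PH.HFinal
import Pool.Agent.Lib.MP_bbe012_lc.GAP.N12
import Pool.Agent.Lib.MP_bbe012_lc.GAP.NLin

/-!
# Separation bounds for almost all parameters
-/

namespace Pool.Agent.Lib.MP_bbe012_lc.GAP

open MvPolynomial MeasureTheory Set PP PG PT PH

/-- For almost all parameters the values are zero or not very small.

Proof. As `almost_allH` (PH/HFinal.lean), with `exists_linH` and `count_near` instead of `exists_haltH` and `count_bad`. -/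
theorem gapH {s μ b : ℕ} (hs : 0 < s) (hb : 2 ≤ b) {m : Fin μ → ℕ} (F : (k : Fin μ) → Typ s (m k))
    (e : Fin s → ℚ) (he : ∀ k, (F k).Base e) {S : Set (Fin s → ℝ)} (hS : IsCompact S) (hSR : S ⊆ Reg F b e)
    (hSi : (interior S).Nonempty) (A : ℕ) :
    ∃ (B : ℕ) (C η : ℝ), 0 < η ∧ ∀ T : ℕ, 1 ≤ T →
      ({θ ∈ PtsT S T | ∃ E : ExH, InClassH F b A T θ E ∧ exhVal E ≠ 0 ∧
        |exhVal E| < ((T : ℝ) ^ B)⁻¹}.ncard : ℝ) ≤
        C * (T : ℝ) ^ (-η) * ((PtsT S T).ncard : ℝ) := by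
  classical
  have : Nonempty (Fin s) := ⟨⟨0, hs⟩⟩
  obtain ⟨n, hn⟩ : ∃ n : ℕ, n = ∑ k, m k := ⟨_, rfl⟩
  have hm : ∀ k, m k ≤ n := fun k => by
    rw [hn]
    exact Finset.single_le_sum (f := m) (fun i _ => Nat.zero_le _) (Finset.mem_univ k)
  have hR := regOK hb hm he
  obtain ⟨ρ, π, q, r, hq, hrel, hV⟩ := exists_relH hR A
  have hV' := hV S hS hSR
  obtain ⟨A', hA'⟩ := exists_linH hm hR hrel
  obtain ⟨C₁, η₁, B', hC₁, hη₁, H₁⟩ := count_near hV' A'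
  obtain ⟨C₂, hC₂, H₂⟩ := few_zeros hs hq
  obtain ⟨c, T₀, hc, H₃⟩ := many_pts hSi
  obtain ⟨T₁, hT₁⟩ : ∃ T₁ : ℕ, T₁ = max T₀ 2 := ⟨_, rfl⟩
  obtain ⟨η, hη⟩ : ∃ η : ℝ, η = min η₁ 1 := ⟨_, rfl⟩
  have hη0 : 0 < η := by
    rw [hη]
    exact lt_min hη₁ one_pos
  have hηa : η ≤ η₁ := by
    rw [hη]
    exact min_le_left _ _
  have hηb : η ≤ 1 := by
    rw [hη]
    exact min_le_right _ _
  refine ⟨A' + B', max ((T₁ : ℝ) ^ η) ((C₁ + C₂) / c), η, hη0, ?_⟩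
  intro T hT
  have hT0 : (0 : ℝ) < (T : ℝ) := by exact_mod_cast hT
  have hT1 : (1 : ℝ) ≤ (T : ℝ) := by exact_mod_cast hT
  have hTη : (0 : ℝ) < (T : ℝ) ^ (-η) := Real.rpow_pos_of_pos hT0 _
  have hn0 : (0 : ℝ) ≤ ((PtsT S T).ncard : ℝ) := Nat.cast_nonneg _
  have hfinA : {θ : Fin s → ℚ | ∀ i, HLE T (θ i)}.Finite :=
    Set.Finite.pi' (fun _ : Fin s => finite_HLE T)
  have hfinP : (PtsT S T).Finite := hfinA.subset fun θ hθ => hθ.1
  obtain ⟨X, hX⟩ : ∃ X : Set (Fin s → ℚ), X = {θ ∈ PtsT S T | ∃ E : ExH, InClassH F b A T θ E ∧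
      exhVal E ≠ 0 ∧ |exhVal E| < ((T : ℝ) ^ (A' + B'))⁻¹} := ⟨_, rfl⟩
  rw [← hX]
  by_cases hTT : T₁ ≤ T
  · have hT2 : 2 ≤ T := by
      have h1 : 2 ≤ max T₀ 2 := le_max_right _ _
      omega
    have hTT0 : T₀ ≤ T := by
      have h1 : T₀ ≤ max T₀ 2 := le_max_left _ _
      omega
    obtain ⟨hfB, hcB⟩ := H₁ T hT
    obtain ⟨Bad, hBad⟩ : ∃ Bad : Set (Fin s → ℚ), Bad = {σ : Fin s → ℚ | (∀ i, HLE T (σ i)) ∧
        (fun i => (σ i : ℝ)) ∈ S ∧ ∃ c : Fin ρ → ℤ, c ≠ 0 ∧ (∀ j, |c j| ≤ (T : ℤ) ^ A') ∧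
          |∑ j, (c j : ℝ) * (fun i => VPH (fun k => (F k).pad (hm k)) b A (π i)) j (fun i => (σ i : ℝ))| ≤
            ((T : ℝ) ^ B')⁻¹} := ⟨_, rfl⟩
    rw [← hBad] at hfB hcB
    obtain ⟨Zer, hZer⟩ : ∃ Zer : Set (Fin s → ℚ), Zer = {θ : Fin s → ℚ | (∀ i, HLE T (θ i)) ∧ aeval θ q = 0} :=
      ⟨_, rfl⟩
    have hcZ := H₂ T hT
    rw [← hZer] at hcZ
    have hfZ : Zer.Finite := by
      rw [hZer]
      exact hfinA.subset fun θ hθ => hθ.1
    have hsub : X ⊆ Bad ∪ Zer := by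
      intro θ hθ
      rw [hX] at hθ
      obtain ⟨⟨hθ1, hθ2⟩, E, hE1, hE2, hE3⟩ := hθ
      by_cases h0 : aeval θ q = 0
      · refine Or.inr ?_
        rw [hZer]
        exact ⟨hθ1, h0⟩
      · refine Or.inl ?_
        obtain ⟨c', w, hc', hw0, hw, hval⟩ := hA' T hT2 θ hθ1 (hSR hθ2) h0 E hE1
        rw [hBad]
        refine ⟨hθ1, hθ2, c', ?_, hc', ?_⟩
        · intro h3
          rw [h3] at hval
          simp only [Pi.zero_apply, Int.cast_zero, zero_mul, Finset.sum_const_zero] at hval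
          exact (mul_ne_zero hw0 hE2) hval
        · have h3 : ∑ j, (c' j : ℝ) * (fun i => VPH (fun k => (F k).pad (hm k)) b A (π i)) j
              (fun i => (θ i : ℝ)) = w * exhVal E := hval.symm
          rw [h3, abs_mul]
          calc |w| * |exhVal E| ≤ (T : ℝ) ^ A' * ((T : ℝ) ^ (A' + B'))⁻¹ :=
                mul_le_mul hw hE3.le (abs_nonneg _) (by positivity)
            _ = ((T : ℝ) ^ B')⁻¹ := by
                rw [pow_add]
                field_simp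
    have h1 : (X.ncard : ℝ) ≤ (Bad.ncard : ℝ) + (Zer.ncard : ℝ) := by
      have h2 := (Set.ncard_le_ncard hsub (hfB.union hfZ)).trans (Set.ncard_union_le Bad Zer)
      exact_mod_cast h2
    have h3 : (T : ℝ) ^ (2 * (Fintype.card (Fin s) : ℝ) - η₁) ≤ (T : ℝ) ^ (2 * (s : ℝ)) * (T : ℝ) ^ (-η) := by
      rw [← Real.rpow_add hT0, Fintype.card_fin]
      exact Real.rpow_le_rpow_of_exponent_le hT1 (by linarith)
    have h4 : (T : ℝ) ^ (2 * (s : ℝ) - 2) ≤ (T : ℝ) ^ (2 * (s : ℝ)) * (T : ℝ) ^ (-η) := by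
      rw [← Real.rpow_add hT0]
      exact Real.rpow_le_rpow_of_exponent_le hT1 (by linarith)
    have h5 : (T : ℝ) ^ (2 * (s : ℝ)) ≤ ((PtsT S T).ncard : ℝ) / c := by
      rw [le_div_iff₀ hc, mul_comm]
      exact H₃ T hTT0
    calc (X.ncard : ℝ) ≤ C₁ * ((T : ℝ) ^ (2 * (s : ℝ)) * (T : ℝ) ^ (-η)) +
          C₂ * ((T : ℝ) ^ (2 * (s : ℝ)) * (T : ℝ) ^ (-η)) := by
            refine h1.trans (add_le_add (hcB.trans ?_) (hcZ.trans ?_))
            · exact mul_le_mul_of_nonneg_left h3 hC₁.le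
            · exact mul_le_mul_of_nonneg_left h4 hC₂.le
      _ = (C₁ + C₂) * (T : ℝ) ^ (-η) * (T : ℝ) ^ (2 * (s : ℝ)) := by ring
      _ ≤ (C₁ + C₂) * (T : ℝ) ^ (-η) * (((PtsT S T).ncard : ℝ) / c) := by
            refine mul_le_mul_of_nonneg_left h5 ?_
            positivity
      _ = (C₁ + C₂) / c * (T : ℝ) ^ (-η) * ((PtsT S T).ncard : ℝ) := by ring
      _ ≤ _ := by
            refine mul_le_mul_of_nonneg_right ?_ hn0
            exact mul_le_mul_of_nonneg_right (le_max_right _ _) hTη.le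
  · have hTle : (T : ℝ) ≤ (T₁ : ℝ) := by
      have h1 : T ≤ T₁ := by omega
      exact_mod_cast h1
    have h1 : (X.ncard : ℝ) ≤ ((PtsT S T).ncard : ℝ) := by
      have h2 : X ⊆ PtsT S T := by
        intro θ hθ
        rw [hX] at hθ
        exact hθ.1
      exact_mod_cast Set.ncard_le_ncard h2 hfinP
    have h2 : (1 : ℝ) ≤ (T₁ : ℝ) ^ η * (T : ℝ) ^ (-η) := by
      have h3 : (T : ℝ) ^ η * (T : ℝ) ^ (-η) = 1 := by
        rw [← Real.rpow_add hT0, add_neg_cancel, Real.rpow_zero]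
      rw [← h3]
      refine mul_le_mul_of_nonneg_right ?_ hTη.le
      exact Real.rpow_le_rpow hT0.le hTle hη0.le
    calc (X.ncard : ℝ) ≤ 1 * ((PtsT S T).ncard : ℝ) := by
            rw [one_mul]
            exact h1
      _ ≤ (T₁ : ℝ) ^ η * (T : ℝ) ^ (-η) * ((PtsT S T).ncard : ℝ) := mul_le_mul_of_nonneg_right h2 hn0
      _ ≤ _ := by
            refine mul_le_mul_of_nonneg_right ?_ hn0
            exact mul_le_mul_of_nonneg_right (le_max_left _ _) hTη.le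

end Pool.Agent.Lib.MP_bbe012_lc.GAP
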